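import Mathlib
import Pool.Agent.Helper69K9.SN.Main
import Pool.Agent.Helper69K9.SN.En
import Pool.Agent.Helper36K9.SN.Cnt
import Pool.Agent.Helper36K9.SN.Newt

/-!
# There are few Perron numbers of degree `d` with infinitely many Parry powers

* For every `T > 1` there is a constant `K` such that for all `d ≥ 2` at most
  `exp (K √(d log d))` Perron numbers `β < T` of degree `d` have infinitely many Parry powers.
* In particular at most `exp (1100 √(d log d))` Perron numbers of degree `d` below Lehmer's number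
  are counterexamples to the question.
-/

set_option autoImplicit false

open Polynomial

namespace Pool.Agent.Results.MP_1f45fc_nt.FewCounterexamples

/-- `β > 1` is an algebraic integer whose other conjugates have modulus less than `β`. -/
def IsPerron (β : ℝ) : Prop :=
  1 < β ∧ IsIntegral ℤ β ∧ ∀ z : ℂ, aeval z (minpoly ℤ β) = 0 → z ≠ (β : ℂ) → ‖z‖ < β

/-- The set of the `k ≥ 1` such that `β ^ k` is a Parry number, that is, the orbit of `1` under
`x ↦ fract (β ^ k * x)` is finite. -/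
def parryPowers (β : ℝ) : Set ℕ :=
  {k : ℕ | 1 ≤ k ∧ (Set.range fun i : ℕ => (fun x : ℝ => Int.fract (β ^ k * x))^[i] 1).Finite}

/-- The Perron numbers below `T` of degree `d` with infinitely many Parry powers. -/
def exceptions (T : ℝ) (d : ℕ) : Set ℝ :=
  {β : ℝ | IsPerron β ∧ β < T ∧ (minpoly ℤ β).natDegree = d ∧ (parryPowers β).Infinite}

theorem result :
    (∀ T : ℝ, 1 < T → ∃ K : ℝ, ∀ d : ℕ, 2 ≤ d → (exceptions T d).Finite ∧
      ((exceptions T d).ncard : ℝ) ≤ Real.exp (K * Real.sqrt (d * Real.log d))) ∧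
    (∀ τ : ℝ, 1 < τ →
      τ ^ 10 + τ ^ 9 - τ ^ 7 - τ ^ 6 - τ ^ 5 - τ ^ 4 - τ ^ 3 + τ + 1 = 0 →
      ∀ d : ℕ, 2 ≤ d → (exceptions τ d).Finite ∧
        ((exceptions τ d).ncard : ℝ) ≤ Real.exp (1100 * Real.sqrt (d * Real.log d))) := by
  have hmain := Pool.Agent.Helper69K9.SN.main' Pool.Agent.Helper69K9.SN.en
    Pool.Agent.Helper69K9.SN.pc Pool.Agent.Helper69K9.SN.newt
  refine ⟨fun T hT => ⟨Pool.Agent.Helper69K9.SN.KK T, fun d hd => hmain T hT d hd⟩, ?_⟩
  intro τ hτ1 hτ d hd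
  have h118 : τ ≤ 118 / 100 := by
    by_contra hcon
    push Not at hcon
    obtain ⟨y, hy⟩ : ∃ y : ℝ, τ = y + 59 / 50 := ⟨τ - 59 / 50, by ring⟩
    have hy0 : 0 ≤ y := by linarith
    rw [hy] at hτ
    ring_nf at hτ
    have h2 : ∀ j : ℕ, 0 ≤ y ^ j := fun j => pow_nonneg hy0 j
    nlinarith [h2 2, h2 3, h2 4, h2 5, h2 6, h2 7, h2 8, h2 9, h2 10]
  obtain ⟨hfin, hcard⟩ := hmain τ hτ1 d hd
  refine ⟨hfin, hcard.trans (Real.exp_le_exp.2 ?_)⟩
  exact mul_le_mul_of_nonneg_right (Pool.Agent.Helper69K9.SN.KK_le hτ1 h118) (Real.sqrt_nonneg _)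

end Pool.Agent.Results.MP_1f45fc_nt.FewCounterexamples
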