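import Mathlib
import Pool.Agent.Helper34K9.PP.Closed

/-!
# Parry powers of Perron numbers and the norms of `β ^ n - 1`

Let `β` be a Perron number of degree `d` and `N n = |Norm (β ^ n - 1)|`.

* If `(∏ n ∈ A, N n) ^ (2 s)` is larger than an explicit bound (`bound` below) for a finite nonempty
  set `A` of positive integers and an integer `s`, then only finitely many powers of `β` are Parry
  numbers.
* Below Lehmer's number: the same holds if `log (N n) ^ 4 > 256 d ^ 2 log (2 d) ^ 3 n` for some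
  `1 ≤ n ≤ log (2 d)`, or if `log (N n) > √(d log (2 d) (log (2 d) + n / 3)) + log (2 d) / 2 + n / 6` for
  some `1 ≤ n ≤ 3 (d - 3) log (2 d)`.
-/

set_option autoImplicit false

open Polynomial

namespace Pool.Agent.Results.MP_1f45fc_nt.NormsOfPowers

/-- `β > 1` is an algebraic integer whose other conjugates have modulus less than `β`. -/
def IsPerron (β : ℝ) : Prop :=
  1 < β ∧ IsIntegral ℤ β ∧ ∀ z : ℂ, aeval z (minpoly ℤ β) = 0 → z ≠ (β : ℂ) → ‖z‖ < β

/-- The set of the `k ≥ 1` such that `β ^ k` is a Parry number, that is, the orbit of `1` under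
`x ↦ fract (β ^ k * x)` is finite. -/
def parryPowers (β : ℝ) : Set ℕ :=
  {k : ℕ | 1 ≤ k ∧ (Set.range fun i : ℕ => (fun x : ℝ => Int.fract (β ^ k * x))^[i] 1).Finite}

/-- `N β n` is the absolute value of the norm of `β ^ n - 1`: the product of `|z ^ n - 1|` over the
complex conjugates `z` of `β`. -/
noncomputable def N (β : ℝ) (n : ℕ) : ℝ :=
  (((minpoly ℤ β).map (Int.castRingHom ℂ)).roots.map fun z => ‖z ^ n - 1‖).prod

/-- The explicit bound, with `D = a d`:
`(s + D) ^ D * ∏_{r < s} C(s + D - 1, r) C(s + D, r + 1) * β ^ (2 (s + D - 1) S)`. -/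
noncomputable def bound (β : ℝ) (d a S s : ℕ) : ℝ :=
  ((s + a * d : ℕ) : ℝ) ^ (a * d) *
    ((∏ r ∈ Finset.range s, (s + a * d - 1).choose r * (s + a * d).choose (r + 1) : ℕ) : ℝ) *
    β ^ (S * (2 * (s + a * d - 1)))

theorem result :
    (∀ β : ℝ, IsPerron β → ∀ (A : Finset ℕ) (s : ℕ), A.Nonempty → (∀ a ∈ A, 1 ≤ a) →
      bound β (minpoly ℤ β).natDegree A.card (∑ a ∈ A, a) s < (∏ a ∈ A, N β a) ^ (2 * s) →
      (parryPowers β).Finite) ∧
    (∀ τ : ℝ, 1 < τ →
      τ ^ 10 + τ ^ 9 - τ ^ 7 - τ ^ 6 - τ ^ 5 - τ ^ 4 - τ ^ 3 + τ + 1 = 0 →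
      ∀ β : ℝ, IsPerron β → β < τ → ∀ d n : ℕ, (minpoly ℤ β).natDegree = d → 1 ≤ n →
      ((n : ℝ) ≤ Real.log (2 * d) ∧
        4 ^ 4 * (d : ℝ) ^ 2 * Real.log (2 * d) ^ 3 * n < Real.log (N β n) ^ 4) ∨
      ((n : ℝ) ≤ 3 * (d - 3) * Real.log (2 * d) ∧
        Real.sqrt (d * Real.log (2 * d) * (Real.log (2 * d) + n / 3)) +
          (Real.log (2 * d)) / 2 + n / 6 < Real.log (N β n)) →
      (parryPowers β).Finite) := by
  constructor
  · intro β hβ A s hne hA hlt
    by_contra hinf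
    exact absurd (Pool.Agent.Helper34K9.PP.several hβ hinf A hA hne s) (not_le.2 hlt)
  · intro τ hτ1 hτ β hβ hβτ d n hd hn hor
    by_contra hinf
    have h118 : τ < 118 / 100 := by
      by_contra hcon
      push Not at hcon
      obtain ⟨y, hy⟩ : ∃ y : ℝ, τ = y + 59 / 50 := ⟨τ - 59 / 50, by ring⟩
      have hy0 : 0 ≤ y := by linarith
      rw [hy] at hτ
      ring_nf at hτ
      have h2 : ∀ j : ℕ, 0 ≤ y ^ j := fun j => pow_nonneg hy0 j
      nlinarith [h2 2, h2 3, h2 4, h2 5, h2 6, h2 7, h2 8, h2 9, h2 10]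
    have hb : Real.log β ≤ 1 / 6 := by
      have h1 := Real.quadratic_le_exp_of_nonneg (x := 1 / 6) (by norm_num)
      have h2 : β ≤ Real.exp (1 / 6) := by
        norm_num at h1
        linarith
      exact (Real.log_le_iff_le_exp (by linarith [hβ.1])).2 h2
    rcases hor with ⟨h1, h2⟩ | ⟨h1, h2⟩
    · exact absurd (Pool.Agent.Helper34K9.PP.short_range hβ hinf hb hn hd h1) (not_le.2 h2)
    · exact absurd (Pool.Agent.Helper34K9.PP.long_range hβ hinf hb hn hd h1) (not_le.2 h2)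

end Pool.Agent.Results.MP_1f45fc_nt.NormsOfPowers
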