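import Mathlib
import Pool.Agent.Helper69K9.RP.Cor
import Pool.Agent.Helper69K9.RP.Pr
import Pool.Agent.Helper69K9.RP.Rs

/-!
# Repulsion of the Perron numbers with infinitely many Parry powers

Let `F` be a set of `N` Perron numbers `β < T` of degree at most `d` with infinitely many Parry
powers. Suppose that

* `∑ b k * W β k ≥ λ ≥ 0` for all `β ∈ F`, where `∑ k * b k ^ 2 ≤ 1 - ε` and `W β k` is the sum of
  the `k`-th powers of the conjugates of `β`, the conjugate `β` being replaced by `1 / β`;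
* the minimal polynomials of all the `β ∈ F` have a common factor of degree `δ p` modulo `p` for the
  primes `p ∈ P`;
* `|β - β'| ≤ η (β β' - 1)` for `β, β' ∈ F` (no condition if `η = 1`).

Then `N (λ ^ 2 + G - (2 log T + ε / (2 - ε)) d) ≤ d log (d / ε) + G` for
`G = ∑ δ p * log p + log (1 / η)`.

The proof estimates the energy of the union of the conjugates of all the elements of `F`; the
resultants of the minimal polynomials take the place of the discriminants.

So below Lehmer's number the counterexamples of degree at most `d` repel each other: at most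
`O (log d)` of them are in a class modulo `2`, or in an interval of length `2 ^ (- d / 2)`, or have
conjugates with a given deviation from the uniform distribution; see `result`.
-/

set_option autoImplicit false

open Polynomial

namespace Pool.Agent.Results.MP_1f45fc_nt.Repulsion

/-- `β > 1` is an algebraic integer whose other conjugates have modulus less than `β`. -/
def IsPerron (β : ℝ) : Prop :=
  1 < β ∧ IsIntegral ℤ β ∧ ∀ z : ℂ, aeval z (minpoly ℤ β) = 0 → z ≠ (β : ℂ) → ‖z‖ < β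

/-- The set of the `k ≥ 1` such that `β ^ k` is a Parry number, that is, the orbit of `1` under
`x ↦ fract (β ^ k * x)` is finite. -/
def parryPowers (β : ℝ) : Set ℕ :=
  {k : ℕ | 1 ≤ k ∧ (Set.range fun i : ℕ => (fun x : ℝ => Int.fract (β ^ k * x))^[i] 1).Finite}

/-- The Perron numbers below `T` of degree at most `d` with infinitely many Parry powers. -/
def exceptions (T : ℝ) (d : ℕ) : Set ℝ :=
  {β : ℝ | IsPerron β ∧ β < T ∧ (minpoly ℤ β).natDegree ≤ d ∧ (parryPowers β).Infinite}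

/-- The sum of the `k`-th powers of the conjugates of `β`, the conjugate `β` being replaced by
`1 / β`. -/
noncomputable def W (β : ℝ) (k : ℕ) : ℝ :=
  (((minpoly ℤ β).aroots ℂ).map fun z => z ^ k).sum.re - β ^ k + (β⁻¹) ^ k

/-- `H` divides the minimal polynomial of `β` modulo `p`. -/
def DividesMod (p : ℕ) (H : (ZMod p)[X]) (β : ℝ) : Prop :=
  H ∣ (minpoly ℤ β).map (Int.castRingHom (ZMod p))

/-- The elements of `exceptions T d` whose minimal polynomial is divisible by `H` modulo `p`. -/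
def inClass (T : ℝ) (d p : ℕ) (H : (ZMod p)[X]) : Set ℝ :=
  {β ∈ exceptions T d | DividesMod p H β}

/-- The elements of `exceptions T d` in the interval from `x` to `x + 2 (x - 1) η`. -/
def inInterval (T : ℝ) (d : ℕ) (x η : ℝ) : Set ℝ :=
  {β ∈ exceptions T d | x ≤ β ∧ β ≤ x + 2 * (x - 1) * η}

/-- The elements of `exceptions T d` with `|∑ b k * W β k| ≥ √d`. -/
def deviating (T : ℝ) (d : ℕ) (b : ℕ → ℝ) : Set ℝ :=
  {β ∈ exceptions T d | Real.sqrt d ≤ |∑ k ∈ Finset.Icc 1 d, b k * W β k|}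

theorem result :
    (∀ T ε : ℝ, 1 < T → 0 < ε → ε < 1 → ∀ d : ℕ, 1 ≤ d → ∀ F : Finset ℝ,
      (∀ β ∈ F, β ∈ exceptions T d) → ∀ (b : ℕ → ℝ) (lam : ℝ),
      ∑ k ∈ Finset.Icc 1 d, (k : ℝ) * b k ^ 2 ≤ 1 - ε → 0 ≤ lam →
      (∀ β ∈ F, lam ≤ ∑ k ∈ Finset.Icc 1 d, b k * W β k) → ∀ (P : Finset ℕ) (δ : ℕ → ℕ),
      (∀ p ∈ P, p.Prime ∧ ∃ H : (ZMod p)[X], H.natDegree = δ p ∧ ∀ β ∈ F, DividesMod p H β) →
      ∀ η : ℝ, 0 < η → η ≤ 1 →
      (∀ β ∈ F, ∀ β' ∈ F, β ≠ β' → |β - β'| ≤ η * (β * β' - 1)) →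
      (F.card : ℝ) * (lam ^ 2 + ∑ p ∈ P, δ p * Real.log p + Real.log (1 / η) -
          (2 * Real.log T + ε / (2 - ε)) * d) ≤
        d * Real.log (d / ε) + ∑ p ∈ P, δ p * Real.log p + Real.log (1 / η)) ∧
    (∀ τ : ℝ, 1 < τ →
      τ ^ 10 + τ ^ 9 - τ ^ 7 - τ ^ 6 - τ ^ 5 - τ ^ 4 - τ ^ 3 + τ + 1 = 0 →
      ∀ d : ℕ, 1 ≤ d →
        (∀ p : ℕ, p.Prime → ∀ H : (ZMod p)[X],
          (2 ^ d ≤ p ^ H.natDegree → (inClass τ d p H).Finite ∧
            ((inClass τ d p H).ncard : ℝ) ≤ 3 * Real.log d + 11) ∧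
          (2 ^ d ≤ p ^ (2 * H.natDegree) → (inClass τ d p H).Finite ∧
            ((inClass τ d p H).ncard : ℝ) ≤ 60 * Real.log d + 300) ∧
          ((8 * d) ^ d ≤ p ^ H.natDegree → (inClass τ d p H).Subsingleton)) ∧
        (∀ x η : ℝ, 1 < x → 0 < η →
          (2 ^ d * η ≤ 1 → (inInterval τ d x η).Finite ∧
            ((inInterval τ d x η).ncard : ℝ) ≤ 3 * Real.log d + 11) ∧
          (2 ^ d * η ^ 2 ≤ 1 → (inInterval τ d x η).Finite ∧
            ((inInterval τ d x η).ncard : ℝ) ≤ 60 * Real.log d + 300) ∧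
          ((8 * (d : ℝ)) ^ d * η ≤ 1 → (inInterval τ d x η).Subsingleton)) ∧
        (∀ b : ℕ → ℝ, ∑ k ∈ Finset.Icc 1 d, (k : ℝ) * b k ^ 2 ≤ 1 →
          (deviating τ d b).Finite ∧ ((deviating τ d b).ncard : ℝ) ≤ 4 * Real.log d + 9)) := by
  have PR := Pool.Agent.Helper69K9.RP.pr
  have RS := Pool.Agent.Helper69K9.RP.rs
  refine ⟨?_, ?_⟩
  · intro T ε hT hε0 hε1 d hd F hF b lam hb hl hlam P δ hP η hη0 hη1 hη
    exact Pool.Agent.Helper69K9.RP.gen2 PR RS hT hε0 hε1 hd F hF b hb lam hl hlam P δ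
      (fun p hp => (hP p hp).1) (fun p hp => (hP p hp).2) η hη0 hη1 hη
  · intro τ hτ1 hτ d hd
    have hT2 := Pool.Agent.Helper69K9.RP.log_lehmer hτ1 hτ
    refine ⟨fun p hp H => ⟨fun hH => ?_, fun hH => ?_, fun hH => ?_⟩,
      fun x η hx hη0 => ⟨fun hH => ?_, fun hH => ?_, fun hH => ?_⟩, fun b hb => ?_⟩
    · exact Pool.Agent.Helper69K9.RP.fin_card _ _ fun F hF =>
        Pool.Agent.Helper69K9.RP.corA PR RS hτ1 hT2 hd hp H hH F hF
    · exact Pool.Agent.Helper69K9.RP.fin_card _ _ fun F hF =>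
        Pool.Agent.Helper69K9.RP.corB PR RS hτ1 hT2 hd hp H hH F hF
    · intro β hβ β' hβ'
      exact Pool.Agent.Helper69K9.RP.corC PR RS hτ1 hT2 hd hp H hH hβ.1 hβ'.1 hβ.2 hβ'.2
    · exact Pool.Agent.Helper69K9.RP.fin_card _ _ fun F hF =>
        Pool.Agent.Helper69K9.RP.corA' PR RS hτ1 hT2 hd hx hη0 hH F hF
    · exact Pool.Agent.Helper69K9.RP.fin_card _ _ fun F hF =>
        Pool.Agent.Helper69K9.RP.corB' PR RS hτ1 hT2 hd hx hη0 hH F hF
    · intro β hβ β' hβ'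
      exact Pool.Agent.Helper69K9.RP.corC' PR RS hτ1 hT2 hd hx hη0 hH hβ.1 hβ'.1 hβ.2 hβ'.2
    · exact Pool.Agent.Helper69K9.RP.fin_card _ _ fun F hF =>
        Pool.Agent.Helper69K9.RP.corE PR RS hτ1 hT2 hd b hb F hF

end Pool.Agent.Results.MP_1f45fc_nt.Repulsion
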